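import Pool.Agent.Run7.h608.Box

/-!
Q2 of MP_29bb0a_mp is false: for Cahen's constant `C` the box-counting dimensions of the critical
almost Mathieu spectrum `Sp_+(C, 1)` satisfy `lower ≤ 121/244 < 1/2` and `upper ≤ 121/182 < 2/3`.
-/

set_option autoImplicit false

namespace Pool.Agent.Results.MP_29bb0a_mp.CahenBoxDimensions

open Finset

/-- The Hilbert space `ℓ²(ℤ)`. -/
abbrev L2 : Type := lp (fun _ : ℤ => ℂ) 2

/-- `H` is the almost Mathieu operator `H_{λ,α,θ}` on `ℓ²(ℤ)`, the bounded operator given by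
`(H ψ)(n) = ψ(n-1) + ψ(n+1) + 2 λ cos(2π(θ + nα)) ψ(n)`. -/
def IsAMO (lam α θ : ℝ) (H : L2 →L[ℂ] L2) : Prop :=
  ∀ (ψ : L2) (n : ℤ), H ψ n =
    ψ (n - 1) + ψ (n + 1) + (2 * lam * Real.cos (2 * Real.pi * (θ + n * α)) : ℝ) * ψ n

/-- There is exactly one such bounded operator. -/
theorem isAMO_existsUnique (lam α θ : ℝ) : ∃! H : L2 →L[ℂ] L2, IsAMO lam α θ H := by
  refine ⟨Run7.h608.amo lam α θ, fun ψ n => Run7.h608.amo_apply lam α θ ψ n, ?_⟩
  intro H hH
  apply ContinuousLinearMap.ext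
  intro ψ
  apply lp.ext
  funext n
  rw [hH ψ n, Run7.h608.amo_apply]

/-- It is symmetric, so that its spectrum is real. -/
theorem isAMO_symmetric (lam α θ : ℝ) (H : L2 →L[ℂ] L2) (hH : IsAMO lam α θ H) (ψ φ : L2) :
    inner ℂ (H ψ) φ = inner ℂ ψ (H φ) := by
  have h := (isAMO_existsUnique lam α θ).unique hH
    (fun ψ n => Run7.h608.amo_apply lam α θ ψ n)
  rw [h]; exact Run7.h608.inner_amo lam α θ ψ φ

/-- The real number `E` is in the resolvent set of `H`: `H - E` is bijective (its inverse is then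
bounded). -/
def InResolvent (H : L2 →L[ℂ] L2) (E : ℝ) : Prop :=
  Function.Bijective (fun ψ : L2 => H ψ - (E : ℂ) • ψ)

/-- `InResolvent` is the negation of membership in Mathlib's spectrum. -/
theorem inResolvent_iff (H : L2 →L[ℂ] L2) (E : ℝ) :
    InResolvent H E ↔ (E : ℂ) ∉ spectrum ℂ H := by
  rw [spectrum.notMem_iff, ContinuousLinearMap.isUnit_iff_bijective]
  have happ : ∀ ψ : L2, (algebraMap ℂ (L2 →L[ℂ] L2) (E : ℂ) - H) ψ = -(H ψ - (E : ℂ) • ψ) := by
    intro ψ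
    rw [ContinuousLinearMap.sub_apply, Algebra.algebraMap_eq_smul_one, neg_sub]
    rfl
  have e : ⇑(algebraMap ℂ (L2 →L[ℂ] L2) (E : ℂ) - H)
      = (Equiv.neg L2) ∘ (fun ψ : L2 => H ψ - (E : ℂ) • ψ) := by
    funext ψ; exact happ ψ
  rw [e, InResolvent]
  exact ((Equiv.neg L2).comp_bijective _).symm

/-- `Sp_+(α, λ)`, the union over all phases `θ` of the spectra of `H_{λ,α,θ}` (these are
self-adjoint bounded operators, so the spectra are real). -/
def SpPlus (α lam : ℝ) : Set ℝ :=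
  {E : ℝ | ∃ θ : ℝ, ∃ H : L2 →L[ℂ] L2, IsAMO lam α θ H ∧ ¬ InResolvent H E}

theorem SpPlus_eq (α lam : ℝ) : SpPlus α lam = Run7.h608.SpPlus α lam := by
  ext E
  constructor
  · rintro ⟨θ, H, hH, hE⟩
    rw [inResolvent_iff, not_not] at hE
    have h := (isAMO_existsUnique lam α θ).unique hH
      (fun ψ n => Run7.h608.amo_apply lam α θ ψ n)
    exact ⟨θ, h ▸ hE⟩
  · rintro ⟨θ, hE⟩
    refine ⟨θ, Run7.h608.amo lam α θ, fun ψ n => Run7.h608.amo_apply lam α θ ψ n, ?_⟩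
    rw [inResolvent_iff, not_not]
    exact hE

/-- `N_δ(F)`, the number of intervals `[mδ, (m+1)δ]`, `m ∈ ℤ`, meeting `F`. -/
noncomputable def gridCount (F : Set ℝ) (δ : ℝ) : ℕ :=
  Set.ncard {m : ℤ | (Set.Icc ((m : ℝ) * δ) (((m : ℝ) + 1) * δ) ∩ F).Nonempty}

/-- the lower box-counting dimension, `liminf log N_δ(F) / log (1/δ)` as `δ → 0+` -/
noncomputable def lowerBoxDim (F : Set ℝ) : ENNReal :=
  Filter.liminf (fun δ : ℝ => ENNReal.ofReal (Real.log (gridCount F δ) / Real.log (1 / δ)))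
    (nhdsWithin 0 (Set.Ioi 0))

/-- the upper box-counting dimension, `limsup log N_δ(F) / log (1/δ)` as `δ → 0+` -/
noncomputable def upperBoxDim (F : Set ℝ) : ENNReal :=
  Filter.limsup (fun δ : ℝ => ENNReal.ofReal (Real.log (gridCount F δ) / Real.log (1 / δ)))
    (nhdsWithin 0 (Set.Ioi 0))

/-- Sylvester's sequence: `s_0 = 2`, `s_{j+1} = 1 + s_0 s_1 ⋯ s_j`; the pair
`(s_0 ⋯ s_{j-1}, s_j)` is computed recursively. -/
def sylPair : ℕ → ℕ × ℕ
  | 0 => (1, 2)
  | (j + 1) => ((sylPair j).1 * (sylPair j).2, 1 + (sylPair j).1 * (sylPair j).2)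

/-- Sylvester's sequence `2, 3, 7, 43, …` -/
def sylvester (j : ℕ) : ℕ := (sylPair j).2

/-- Cahen's constant `∑ (-1)^j / (s_j - 1)` -/
noncomputable def cahen : ℝ := ∑' j : ℕ, (-1 : ℝ) ^ j / ((sylvester j : ℝ) - 1)

theorem sylPair_fst (j : ℕ) : (sylPair j).1 = ∏ i ∈ range j, sylvester i := by
  induction j with
  | zero => simp [sylPair]
  | succ j ih => rw [prod_range_succ, ← ih]; rfl

/-- the defining recursion of Sylvester's sequence -/
theorem sylvester_succ (j : ℕ) : sylvester (j + 1) = 1 + ∏ i ∈ range (j + 1), sylvester i := by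
  rw [prod_range_succ, ← sylPair_fst]; rfl

theorem sylvester_eq (j : ℕ) : sylvester j = Run7.h364.AMO.syl j := by
  induction j using Nat.strong_induction_on with
  | _ j ih =>
    cases j with
    | zero => rw [Run7.h364.AMO.syl]; rfl
    | succ j =>
      rw [sylvester_succ, Run7.h364.AMO.syl_succ]
      congr 1
      apply prod_congr rfl
      intro i hi
      exact ih i (mem_range.mp hi)

theorem cahen_eq : cahen = Run7.h364.AMO.cahen := by
  unfold cahen Run7.h364.AMO.cahen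
  simp only [sylvester_eq]

/-- For Cahen's constant `C`, the box-counting dimensions of `Sp_+(C, 1)` satisfy
`lower ≤ 121/244 < 1/2` and `upper ≤ 121/182 < 2/3`; in particular the assertion
`dim_H < lower = 1/2 < upper = 2/3` of Q2 is false. -/
theorem result :
    lowerBoxDim (SpPlus cahen 1) ≤ ENNReal.ofReal (121 / 244) ∧
    upperBoxDim (SpPlus cahen 1) ≤ ENNReal.ofReal (121 / 182) ∧
    ¬ (dimH (SpPlus cahen 1) < lowerBoxDim (SpPlus cahen 1) ∧
      lowerBoxDim (SpPlus cahen 1) = 1 / 2 ∧ 1 / 2 < upperBoxDim (SpPlus cahen 1) ∧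
      upperBoxDim (SpPlus cahen 1) = 2 / 3) := by
  rw [cahen_eq, SpPlus_eq]
  refine ⟨Run7.h608.lowerBox_cahen, Run7.h608.upperBox_cahen, ?_⟩
  rintro ⟨-, h, -, -⟩
  have h2 : lowerBoxDim (Run7.h608.SpPlus Run7.h364.AMO.cahen 1) < 1 / 2 := Run7.h608.lowerBox_cahen_lt
  exact absurd h h2.ne

end Pool.Agent.Results.MP_29bb0a_mp.CahenBoxDimensions
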